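import Pool.Agent.J4H50.YJ.Cy

/-! Project YJ (helper50), piece C1: the arcs `x = t ^ i ξ`, `ξ(0) ≠ 0`. -/

set_option autoImplicit false

namespace Pool.Agent.J4H21.YJ.C1

open MvPolynomial
open Pool.Agent.W428.MOT
open Pool.Agent.J4H50.YJ

theorem aeval_mulc {K A σ : Type} [Field K] [CommRing A] [Algebra K A] {f : MvPolynomial σ K} {d : ℕ}
    (hf : f.IsHomogeneous d) (x : σ → A) (c : A) :
    aeval (fun j => c * x j) f = c ^ d * aeval x f := by
  rw [aeval_def, aeval_def, eval₂_eq, eval₂_eq, Finset.mul_sum]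
  refine Finset.sum_congr rfl fun m hm => ?_
  have hm' : ∑ i ∈ m.support, m i = d := by
    have h2 : m.degree = d := by
      rw [Finsupp.degree_eq_weight_one]
      exact hf (mem_support_iff.1 hm)
    rw [← h2]
    rfl
  have h1 : ∏ i ∈ m.support, (c * x i) ^ m i = c ^ d * ∏ i ∈ m.support, x i ^ m i := by
    rw [← hm', ← Finset.prod_pow_eq_pow_sum, ← Finset.prod_mul_distrib]
    exact Finset.prod_congr rfl fun i _ => mul_pow _ _ _
  rw [h1]
  ring

theorem Od_X {F : Type} [Field F] (y : PowerSeries F) (n l : ℕ) :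
    Od (PowerSeries.X ^ n * y) l ↔ n ≤ l ∧ Od y (l - n) := by
  unfold Od
  simp only [PowerSeries.coeff_X_pow_mul']
  constructor
  · rintro ⟨h1, h2⟩
    have hn : n ≤ l := by
      by_contra h
      rw [if_neg h] at h2
      exact h2 rfl
    refine ⟨hn, fun j hj => ?_, ?_⟩
    · have := h1 (n + j) (by omega)
      rw [if_pos (by omega)] at this
      rwa [Nat.add_sub_cancel_left] at this
    · rwa [if_pos hn] at h2
  · rintro ⟨hn, h1, h2⟩
    refine ⟨fun j hj => ?_, ?_⟩
    · split_ifs with h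
      · exact h1 _ (by omega)
      · rfl
    · rwa [if_pos hn]

variable {K : Type} [Field K] {σ : Type}

theorem aeval_shift (F : MvPolynomial σ K) (d : ℕ) (h : ∀ j < d, homogeneousComponent j F = 0) (i : ℕ)
    (ξ : Ac K σ) : aeval (fun r => PowerSeries.X ^ i * ξ r) F = PowerSeries.X ^ (d * i) * Qm F d i ξ := by
  conv_lhs => rw [← sum_homogeneousComponent F]
  rw [map_sum, Qm, Finset.mul_sum]
  refine Finset.sum_congr rfl fun j _ => ?_
  by_cases hj : j < d
  · rw [h j hj, map_zero, map_zero, mul_zero, mul_zero]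
  · rw [aeval_mulc (homogeneousComponent_isHomogeneous j F), ← pow_mul, ← mul_assoc, ← pow_add]
    congr 2
    have : j = d + (j - d) := by omega
    conv_lhs => rw [this]
    ring

theorem t_C1 : Bas → S_C1 := by
  intro hB K _ R _ M v hv σ _ F d hd hF l hl
  classical
  set C : ℕ → Set (Ac K σ) := fun i => {ξ | (∃ r, PowerSeries.coeff 0 (ξ r) ≠ 0) ∧ Od (Qm F d i ξ) (l - d * i)}
    with hC
  have hCc : ∀ i, IsCyl (C i) := by
    intro i
    have h1 : IsCyl {ξ : Ac K σ | ∃ r, PowerSeries.coeff 0 (ξ r) ≠ 0} := by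
      have h2 := (cyl_ops M v hv hB.v1 (σ := σ)).1 _ (cyl_finInter M v hv hB.v1 Finset.univ
        (fun r => {x : Ac K σ | PowerSeries.coeff 0 (x r) = 0}) fun r _ => cyl_coord hB.cc r 0)
      have e : {x : Ac K σ | ∀ r ∈ Finset.univ, x ∈ {x : Ac K σ | PowerSeries.coeff 0 (x r) = 0}}ᶜ =
          {ξ : Ac K σ | ∃ r, PowerSeries.coeff 0 (ξ r) ≠ 0} := by
        ext x
        simp only [Set.mem_compl_iff, Set.mem_ofPred_eq, Finset.mem_univ, forall_const]
        push Not
        rfl
      rwa [e] at h2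
    exact (cyl_ops M v hv hB.v1 (σ := σ)).2.1 _ _ h1 (cyl_Qm M v hv hB.v1 hB.cc F d i (l - d * i))
  set B : ℕ → Set (Ac K σ) := fun i => {x | ∃ y ∈ C i, ∀ r, x r = PowerSeries.X ^ i * y r} with hBdef
  have hsc : ∀ i, IsCyl (B i) ∧ vol M v (B i) = v ^ (Fintype.card σ * i) * vol M v (C i) := by
    intro i
    obtain ⟨h1, h2⟩ := hB.sc M v hv (fun _ : σ => i) (C i) (hCc i)
    refine ⟨h1, ?_⟩
    have e : ∑ _r : σ, i = Fintype.card σ * i := by
      rw [Finset.sum_const, Finset.card_univ, smul_eq_mul]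
    rw [e] at h2
    exact h2
  have hdisj : ∀ i ∈ (Finset.Icc 1 l).filter (fun i => d * i ≤ l),
      ∀ j ∈ (Finset.Icc 1 l).filter (fun i => d * i ≤ l), i ≠ j → Disjoint (B i) (B j) := by
    have key : ∀ i j, i < j → Disjoint (B i) (B j) := by
      intro i j hij
      rw [Set.disjoint_left]
      rintro x ⟨y, ⟨⟨r, hr⟩, -⟩, hy⟩ ⟨z, -, hz⟩
      apply hr
      have h1 : PowerSeries.coeff i (x r) = PowerSeries.coeff 0 (y r) := by
        rw [hy r, PowerSeries.coeff_X_pow_mul', if_pos le_rfl, Nat.sub_self]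
      have h2 : PowerSeries.coeff i (x r) = 0 := by
        rw [hz r, PowerSeries.coeff_X_pow_mul', if_neg (by omega)]
      rw [← h1, h2]
    intro i _ j _ hij
    rcases lt_or_gt_of_ne hij with h | h
    · exact key i j h
    · exact (key j i h).symm
  have hU : {x | ∃ i ∈ (Finset.Icc 1 l).filter (fun i => d * i ≤ l), x ∈ B i} = A1 F l := by
    ext x
    simp only [Set.mem_ofPred_eq, Finset.mem_filter, Finset.mem_Icc]
    constructor
    · rintro ⟨i, ⟨⟨hi1, hi2⟩, hi3⟩, y, ⟨hy1, hy2⟩, hy⟩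
      refine ⟨fun r => ?_, ?_⟩
      · rw [hy r, PowerSeries.coeff_X_pow_mul', if_neg (by omega)]
      · have hx : x = fun r => PowerSeries.X ^ i * y r := funext hy
        rw [hx, aeval_shift F d hF, Od_X]
        exact ⟨hi3, hy2⟩
    · rintro ⟨hx0, hx⟩
      have hex : ∃ i, ∃ r, PowerSeries.coeff i (x r) ≠ 0 := by
        by_contra hcon
        push Not at hcon
        have hx' : x = fun r => PowerSeries.X ^ (l + 1) * (0 : Ac K σ) r := by
          funext r
          ext i
          rw [hcon i r]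
          simp
        rw [hx', aeval_shift F d hF, Od_X] at hx
        have h1 := hx.1
        have h2 : l + 1 ≤ d * (l + 1) := Nat.le_mul_of_pos_left _ hd
        omega
      obtain ⟨r, hr⟩ := Nat.find_spec hex
      have hmin : ∀ j < Nat.find hex, ∀ r, PowerSeries.coeff j (x r) = 0 := by
        intro j hj r
        by_contra hcon
        exact Nat.find_min hex hj ⟨r, hcon⟩
      set i := Nat.find hex with hi
      have hi1 : 1 ≤ i := by
        by_contra h
        have h0 : i = 0 := by omega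
        rw [h0] at hr
        exact hr (hx0 r)
      have hdvd : ∀ r, ∃ y, x r = PowerSeries.X ^ i * y := fun r =>
        PowerSeries.X_pow_dvd_iff.2 fun j hj => hmin j hj r
      choose y hy using hdvd
      have hxy : x = fun r => PowerSeries.X ^ i * y r := funext hy
      have hx2 := hx
      rw [hxy, aeval_shift F d hF, Od_X] at hx2
      refine ⟨i, ⟨⟨hi1, ?_⟩, hx2.1⟩, y, ⟨⟨r, ?_⟩, hx2.2⟩, hy⟩
      · have h2 : i ≤ d * i := Nat.le_mul_of_pos_left _ hd
        exact h2.trans hx2.1
      · rw [hy r, PowerSeries.coeff_X_pow_mul', if_pos le_rfl, Nat.sub_self] at hr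
        exact hr
  rw [← hU, vol_finUnion M v hv hB.v1 _ B (fun i _ => (hsc i).1) hdisj, Finset.sum_filter]
  refine Finset.sum_congr rfl fun i _ => ?_
  split_ifs with h
  · rw [(hsc i).2]
  · rfl

end Pool.Agent.J4H21.YJ.C1

namespace Pool.Agent.J4H21.YJ

open Pool.Agent.J4H50.YJ

theorem t_C1 : Bas → S_C1 := C1.t_C1

end Pool.Agent.J4H21.YJ
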