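import Pool.Agent.J4H50.YJ.Stm

/-! Project YJ (helper50), piece C5: the classes of the complement and of the smooth part of a cone. -/

set_option autoImplicit false

namespace Pool.Agent.J4H21.YJ

open MvPolynomial
open Pool.Agent.W428.MOT
open Pool.Agent.TH192.MT
open Pool.Agent.J4H50.YJ

variable {K : Type} [Field K] {R : Type} [CommRing R] (M : Meas K R)

theorem chi_empty {ι : Type} [Fintype ι] : M.χ ι (∅ : Set (Pt K ι)) = 0 := by
  have h := M.add (∅ : Set (Pt K ι)) ∅ Constr.empty Constr.empty (Set.disjoint_empty _)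
  rw [Set.union_empty] at h
  simpa using h

/-- finite disjoint unions -/
theorem chi_sum {ι α : Type} [Fintype ι] (s : Finset α) (S : α → Set (Pt K ι)) (hS : ∀ a ∈ s, Constr (S a))
    (hd : ∀ a ∈ s, ∀ b ∈ s, a ≠ b → Disjoint (S a) (S b)) :
    Constr {z | ∃ a ∈ s, z ∈ S a} ∧ M.χ ι {z | ∃ a ∈ s, z ∈ S a} = ∑ a ∈ s, M.χ ι (S a) := by
  classical
  refine ⟨Constr.bexFinset s (p := fun a z => z ∈ S a) hS, ?_⟩
  induction s using Finset.induction_on with
  | empty =>
    have h1 : {z : Pt K ι | ∃ a ∈ (∅ : Finset α), z ∈ S a} = ∅ := by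
      ext z
      simp
    rw [h1, Finset.sum_empty]
    exact chi_empty M
  | insert a s ha ih =>
    have h1 : {z : Pt K ι | ∃ b ∈ insert a s, z ∈ S b} = S a ∪ {z | ∃ b ∈ s, z ∈ S b} := by
      ext z
      simp
    have hS' : ∀ b ∈ s, Constr (S b) := fun b hb => hS b (Finset.mem_insert_of_mem hb)
    have hd' : Disjoint (S a) {z | ∃ b ∈ s, z ∈ S b} := by
      rw [Set.disjoint_left]
      rintro z hz ⟨b, hb, hzb⟩
      have hab : a ≠ b := fun e => ha (e ▸ hb)
      exact Set.disjoint_left.1 (hd a (Finset.mem_insert_self _ _) b (Finset.mem_insert_of_mem hb) hab) hz hzb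
    rw [h1, M.add _ _ (hS a (Finset.mem_insert_self _ _)) (Constr.bexFinset s (p := fun a z => z ∈ S a) hS') hd',
      ih hS' (fun b hb c hc => hd b (Finset.mem_insert_of_mem hb) c (Finset.mem_insert_of_mem hc)),
      Finset.sum_insert ha]

theorem chi_zero {ι : Type} [Fintype ι] : Constr {z : Pt K ι | z = 0} ∧ M.χ ι {z : Pt K ι | z = 0} = 1 := by
  have h0 : {z : Pt K ι | z = 0} = {z | ∀ i, z i = 0} := by
    ext z
    exact funext_iff
  have h1 : Constr {z : Pt K ι | z = 0} := by
    rw [h0]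
    exact Constr.all fun i => Constr.eqz (IsPF.coord i)
  refine ⟨h1, ?_⟩
  rw [← M.point (ι := Empty)]
  refine M.iso _ _ h1 Constr.univ (fun _ i => i.elim) (fun _ _ => 0) (fun i => i.elim)
    (fun i => IsPF.zero.isRF _) (fun _ _ => trivial) (fun _ _ => rfl) ?_ ?_
  · intro z hz
    funext i
    rw [show z = 0 from hz]
    rfl
  · intro w _
    funext i
    exact i.elim

/-- the punctured line -/
def Gm (K : Type) [Field K] : Set (Pt K (Fin 1)) := {z | z 0 ≠ 0}

theorem gm_constr : Constr (Gm K) := Constr.ne (IsPF.coord 0) IsPF.zero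

theorem chi_gm : M.χ (Fin 1) (Gm K) = M.L - 1 := by
  have h1 := M.add (Gm K) {z : Pt K (Fin 1) | z = 0} gm_constr (chi_zero M).1 (by
    rw [Set.disjoint_left]
    intro z hz hz'
    exact hz (by rw [show z = 0 from hz']; rfl))
  have h2 : Gm K ∪ {z : Pt K (Fin 1) | z = 0} = Set.univ := by
    ext z
    simp only [Gm, Set.mem_union, Set.mem_ofPred_eq, Set.mem_univ, iff_true]
    by_cases h : z 0 = 0
    · right
      funext i
      rw [Subsingleton.elim i 0, h]
      rfl
    · exact Or.inl h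
  rw [h2, (chi_zero M).2] at h1
  have h3 : M.χ (Fin 1) (Set.univ : Set (Pt K (Fin 1))) = M.L := rfl
  rw [h3] at h1
  rw [h1]
  ring

/-- a part of a cone where `x i ≠ 0` -/
theorem chi_part {σ : Type} [Fintype σ] (i : σ) (S : Set (Pt K σ)) (hS : Constr S) (hi : ∀ x ∈ S, x i ≠ 0)
    (hc : ∀ x ∈ S, ∀ c : AlgebraicClosure K, c ≠ 0 → (fun j => c * x j) ∈ S) :
    M.χ σ S = (M.L - 1) * M.χ σ {x | x ∈ S ∧ x i = 1} := by
  have hV : Constr {x | x ∈ S ∧ x i = 1} := hS.and (Constr.eq (IsPF.coord i) IsPF.one)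
  rw [← chi_gm, ← M.prod _ _ gm_constr hV]
  have hT : Constr {z : Pt K (Fin 1 ⊕ σ) | (fun i => z (Sum.inl i)) ∈ Gm K ∧
      (fun i => z (Sum.inr i)) ∈ {x | x ∈ S ∧ x i = 1}} := by
    refine Constr.and ?_ ?_
    · exact gm_constr.preimage (fun z : Pt K (Fin 1 ⊕ σ) => fun i => z (Sum.inl i)) fun i => IsPF.coord _
    · exact hV.preimage (fun z : Pt K (Fin 1 ⊕ σ) => fun i => z (Sum.inr i)) fun i => IsPF.coord _
  refine M.iso S _ hS hT (fun x => Sum.elim (fun _ => x i) (fun j => x j / x i))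
    (fun z j => z (Sum.inl 0) * z (Sum.inr j)) ?_ ?_ ?_ ?_ ?_ ?_
  · rintro (a | j)
    · exact (IsPF.coord i).isRF _
    · exact ((IsPF.coord j).isRF _).div ((IsPF.coord i).isRF _) hi
  · intro j
    exact ((IsPF.coord _).mul (IsPF.coord _)).isRF _
  · intro x hx
    refine ⟨hi x hx, ?_, ?_⟩
    · have := hc x hx (x i)⁻¹ (inv_ne_zero (hi x hx))
      have e : (fun j => (x i)⁻¹ * x j) = fun j => x j / x i := by
        funext j
        rw [div_eq_inv_mul]
      rw [e] at this
      exact this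
    · exact div_self (hi x hx)
  · rintro z ⟨hz1, hz2, hz3⟩
    exact hc _ hz2 _ hz1
  · intro x hx
    funext j
    show x i * (x j / x i) = x j
    field_simp [hi x hx]
  · rintro z ⟨hz1, hz2, hz3⟩
    have hz1' : z (Sum.inl 0) ≠ 0 := hz1
    have hz3' : z (Sum.inr i) = 1 := hz3
    funext a
    rcases a with a | j
    · rw [Subsingleton.elim a 0]
      show z (Sum.inl 0) * z (Sum.inr i) = z (Sum.inl 0)
      rw [hz3', mul_one]
    · show z (Sum.inl 0) * z (Sum.inr j) / (z (Sum.inl 0) * z (Sum.inr i)) = z (Sum.inr j)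
      rw [hz3', mul_one]
      field_simp

/-- cones -/
theorem chi_cone {σ : Type} [Fintype σ] (S : Set (Pt K σ)) (hS : Constr S) (h0 : ∀ x ∈ S, x ≠ 0)
    (hc : ∀ x ∈ S, ∀ c : AlgebraicClosure K, c ≠ 0 → (fun j => c * x j) ∈ S) :
    ∃ A : R, M.χ σ S = (M.L - 1) * A := by
  classical
  let e := Fintype.equivFin σ
  let U : σ → Set (Pt K σ) := fun i => {x | x ∈ S ∧ x i ≠ 0 ∧ ∀ j : σ, e j < e i → x j = 0}
  have hU : ∀ i, Constr (U i) := fun i =>
    hS.and ((Constr.ne (IsPF.coord i) IsPF.zero).and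
      (Constr.all fun j => Constr.imp' fun _ => Constr.eqz (IsPF.coord j)))
  have hd : ∀ i ∈ (Finset.univ : Finset σ), ∀ j ∈ (Finset.univ : Finset σ), i ≠ j → Disjoint (U i) (U j) := by
    intro i _ j _ hij
    rw [Set.disjoint_left]
    rintro x ⟨_, h1, h2⟩ ⟨_, h3, h4⟩
    rcases lt_trichotomy (e i) (e j) with h | h | h
    · exact h1 (h4 i h)
    · exact hij (e.injective h)
    · exact h3 (h2 j h)
  obtain ⟨-, hs⟩ := chi_sum M Finset.univ U (fun i _ => hU i) hd
  have hSU : {z | ∃ a ∈ (Finset.univ : Finset σ), z ∈ U a} = S := by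
    ext x
    simp only [Finset.mem_univ, true_and, Set.mem_ofPred_eq]
    constructor
    · rintro ⟨i, hx, -⟩
      exact hx
    · intro hx
      have hne : (Finset.univ.filter fun i => x i ≠ 0).Nonempty := by
        by_contra hcon
        rw [Finset.not_nonempty_iff_eq_empty] at hcon
        apply h0 x hx
        funext i
        by_contra hi
        have : i ∈ Finset.univ.filter fun i => x i ≠ 0 := Finset.mem_filter.2 ⟨Finset.mem_univ _, hi⟩
        rw [hcon] at this
        exact absurd this (Finset.notMem_empty _)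
      obtain ⟨i, hi, hmin⟩ := Finset.exists_min_image _ e hne
      refine ⟨i, hx, (Finset.mem_filter.1 hi).2, fun j hj => ?_⟩
      by_contra hj0
      exact absurd (hmin j (Finset.mem_filter.2 ⟨Finset.mem_univ _, hj0⟩)) (not_le.2 hj)
  rw [hSU] at hs
  refine ⟨∑ i, M.χ σ {x | x ∈ U i ∧ x i = 1}, ?_⟩
  rw [hs, Finset.mul_sum]
  refine Finset.sum_congr rfl fun i _ => chi_part M i (U i) (hU i) (fun x hx => hx.2.1) ?_
  rintro x ⟨h1, h2, h3⟩ c hc0
  exact ⟨hc x h1 c hc0, mul_ne_zero hc0 h2, fun j hj => by show c * x j = 0; rw [h3 j hj, mul_zero]⟩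

/-- the punctured line through a point -/
def Ln {σ : Type} (P : σ → K) : Set (Pt K σ) := {x | ∃ c : AlgebraicClosure K, c ≠ 0 ∧ ∀ r, x r = c * gp P r}

theorem gp_ne {σ : Type} {P : σ → K} {i : σ} (hi : P i ≠ 0) : gp P i ≠ 0 := by
  unfold gp
  rw [Ne, map_eq_zero]
  exact hi

theorem ln_iff {σ : Type} {P : σ → K} {i : σ} (hi : P i ≠ 0) (x : Pt K σ) :
    x ∈ Ln P ↔ x i ≠ 0 ∧ ∀ l, x l * gp P i = x i * gp P l := by
  have hg := gp_ne hi
  constructor
  · rintro ⟨c, hc, h⟩
    refine ⟨by rw [h]; exact mul_ne_zero hc hg, fun l => ?_⟩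
    rw [h, h]
    ring
  · rintro ⟨h1, h2⟩
    refine ⟨x i / gp P i, div_ne_zero h1 hg, fun r => ?_⟩
    have := h2 r
    field_simp
    linear_combination this

theorem ln_constr {σ : Type} [Fintype σ] {P : σ → K} {i : σ} (hi : P i ≠ 0) : Constr (Ln P) := by
  have h : Ln P = {x : Pt K σ | x i ≠ 0 ∧ ∀ l, x l * gp P i = x i * gp P l} := by
    ext x
    exact ln_iff hi x
  rw [h]
  exact (Constr.ne (IsPF.coord i) IsPF.zero).and (Constr.all fun l =>
    Constr.eq ((IsPF.coord l).mul (IsPF.const _)) ((IsPF.coord i).mul (IsPF.const _)))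

theorem chi_ln {σ : Type} [Fintype σ] {P : σ → K} {i : σ} (hi : P i ≠ 0) : M.χ σ (Ln P) = M.L - 1 := by
  rw [← chi_gm]
  have hg := gp_ne hi
  refine M.iso _ _ (ln_constr hi) gm_constr (fun x _ => x i / gp P i) (fun z r => z 0 * gp P r) ?_ ?_ ?_ ?_ ?_ ?_
  · intro _
    exact ((IsPF.coord i).isRF _).div ((IsPF.const (P i)).isRF _) (fun _ _ => hg)
  · intro r
    exact ((IsPF.coord 0).mul (IsPF.const (P r))).isRF _
  · intro x hx
    have := ((ln_iff hi x).1 hx).1
    exact div_ne_zero this hg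
  · intro z hz
    exact ⟨z 0, hz, fun r => rfl⟩
  · intro x hx
    funext r
    have := ((ln_iff hi x).1 hx).2 r
    show x i / gp P i * gp P r = x r
    field_simp
    linear_combination -this
  · intro z hz
    funext a
    rw [Subsingleton.elim a 0]
    show z 0 * gp P i / gp P i = z 0
    field_simp

theorem aeval_smul {σ : Type} {f : MvPolynomial σ K} {d : ℕ} (hf : f.IsHomogeneous d) (x : Pt K σ)
    (c : AlgebraicClosure K) : aeval (fun j => c * x j) f = c ^ d * aeval x f := by
  rw [aeval_def, aeval_def, eval₂_eq, eval₂_eq, Finset.mul_sum]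
  refine Finset.sum_congr rfl fun m hm => ?_
  have hm' : ∑ i ∈ m.support, m i = d := by
    have h2 : m.degree = d := by
      rw [Finsupp.degree_eq_weight_one]
      exact hf (mem_support_iff.1 hm)
    rw [← h2]
    rfl
  have h1 : ∏ i ∈ m.support, (c * x i) ^ m i = c ^ d * ∏ i ∈ m.support, x i ^ m i := by
    rw [← hm', ← Finset.prod_pow_eq_pow_sum, ← Finset.prod_mul_distrib]
    exact Finset.prod_congr rfl fun i _ => mul_pow _ _ _
  rw [h1]
  ring

theorem aeval_zero' {σ : Type} {f : MvPolynomial σ K} {d : ℕ} (hf : f.IsHomogeneous d) (hd : 1 ≤ d) :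
    aeval (0 : Pt K σ) f = 0 := by
  have h1 := aeval_smul hf (0 : Pt K σ) 0
  rw [zero_pow (by omega), zero_mul] at h1
  have h2 : (fun j => (0 : AlgebraicClosure K) * (0 : Pt K σ) j) = 0 := by
    funext j
    simp
  rwa [h2] at h1

theorem aeval_gp {σ : Type} (P : σ → K) (f : MvPolynomial σ K) :
    aeval (gp P) f = algebraMap K (AlgebraicClosure K) (eval P f) := by
  have h3 : gp P = fun j => algebraMap K (AlgebraicClosure K) (P j) := rfl
  rw [h3]
  induction f using MvPolynomial.induction_on with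
  | C a => simp
  | add p q hp hq => simp [hp, hq]
  | mul_X p i hp => simp [hp]

theorem t_C5 : S_C5 := by
  intro K _ _ R _ M σ ι _ _ f d hd hf P hP
  classical
  have hder : ∀ l, (pderiv l f).IsHomogeneous (d - 1) := fun l => hf.pderiv
  -- the complement of the cone
  have hUc : Constr (UU f) := (Constr.zero f).compl
  obtain ⟨A, hA⟩ := chi_cone M (UU f) hUc (by
    intro x hx h0
    apply hx
    rw [h0]
    exact aeval_zero' hf (by omega)) (by
    intro x hx c hc
    show aeval (fun j => c * x j) f ≠ 0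
    rw [aeval_smul hf]
    exact mul_ne_zero (pow_ne_zero _ hc) hx)
  refine ⟨A, hA, ?_⟩
  have hYc : Constr (YY f) :=
    (Constr.zero f).and (Constr.ex fun l => (Constr.zero (pderiv l f)).compl)
  -- representatives
  have hi : ∀ r, ∃ i, P r i ≠ 0 := by
    intro r
    by_contra hcon
    push Not at hcon
    exact hP.ne r (funext hcon)
  choose i hi using hi
  have euler : ∀ x : Pt K σ, (∀ l, aeval x (pderiv l f) = 0) → aeval x f = 0 := by
    intro x hx
    have h1 := congrArg (aeval x) hf.sum_X_mul_pderiv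
    rw [map_sum] at h1
    have h2 : ∑ l, aeval x (X l * pderiv l f) = 0 := by
      refine Finset.sum_eq_zero fun l _ => ?_
      rw [map_mul, hx l, mul_zero]
    rw [h2, map_nsmul, nsmul_eq_mul] at h1
    have : CharZero (AlgebraicClosure K) := charZero_of_injective_algebraMap (FaithfulSMul.algebraMap_injective K _)
    rcases mul_eq_zero.1 h1.symm with h3 | h3
    · exact absurd h3 (by exact_mod_cast (by omega : d ≠ 0))
    · exact h3
  have hln : ∀ r, ∀ x ∈ Ln (P r), x ≠ 0 ∧ ∀ l, aeval x (pderiv l f) = 0 := by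
    rintro r x ⟨c, hc, hx⟩
    refine ⟨?_, fun l => ?_⟩
    · intro h0
      have h1 := hx (i r)
      rw [h0] at h1
      exact mul_ne_zero hc (gp_ne (hi r)) h1.symm
    · have h1 : x = fun j => c * gp (P r) j := funext hx
      rw [h1, aeval_smul (hder l), aeval_gp, hP.sing, map_zero, mul_zero]
  have hall : ∀ x : Pt K σ, x ≠ 0 → (∀ l, aeval x (pderiv l f) = 0) → ∃ r, x ∈ Ln (P r) := by
    intro x hx h
    obtain ⟨r, c, hc⟩ := hP.all x hx h
    refine ⟨r, c, ?_, fun j => by rw [hc]⟩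
    intro h0
    apply hx
    rw [hc, h0]
    funext j
    simp
  have hdisj : ∀ r ∈ (Finset.univ : Finset ι), ∀ s ∈ (Finset.univ : Finset ι), r ≠ s →
      Disjoint (Ln (P r) : Set (Pt K σ)) (Ln (P s)) := by
    intro r _ s _ hrs
    rw [Set.disjoint_left]
    rintro x ⟨c, hc, hx⟩ ⟨c', hc', hx'⟩
    apply hP.inj r s hrs (P r (i s) / P s (i s))
    have hinj : Function.Injective (algebraMap K (AlgebraicClosure K)) := (algebraMap K (AlgebraicClosure K)).injective
    have hk : ∀ j, c * gp (P r) j = c' * gp (P s) j := fun j => by rw [← hx, hx']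
    have hs := gp_ne (hi s)
    funext j
    apply hinj
    have h1 := hk j
    have h2 := hk (i s)
    show algebraMap K _ (P r j) = algebraMap K _ (P r (i s) / P s (i s) * P s j)
    rw [map_mul, map_div₀]
    change gp (P r) j = gp (P r) (i s) / gp (P s) (i s) * gp (P s) j
    have h3 : c * (gp (P r) j * gp (P s) (i s)) = c * (gp (P r) (i s) * gp (P s) j) := by
      linear_combination gp (P s) (i s) * h1 - gp (P s) j * h2
    have h4 := mul_left_cancel₀ hc h3
    field_simp
    exact h4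
  obtain ⟨hLc, hLs⟩ := chi_sum M Finset.univ (fun r => (Ln (P r) : Set (Pt K σ))) (fun r _ => ln_constr (hi r)) hdisj
  set Lin : Set (Pt K σ) := {z | ∃ r ∈ (Finset.univ : Finset ι), z ∈ Ln (P r)} with hLin
  have hLs' : M.χ σ Lin = (Fintype.card ι : R) * (M.L - 1) := by
    rw [hLs, Finset.sum_congr rfl fun r _ => chi_ln M (hi r), Finset.sum_const, Finset.card_univ, nsmul_eq_mul]
  have h0 := chi_zero (K := K) M (ι := σ)
  have hYL : Disjoint (YY f) Lin := by
    rw [Set.disjoint_left]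
    rintro x ⟨_, l, hl⟩ ⟨r, _, hr⟩
    exact hl ((hln r x hr).2 l)
  have hUYL : Disjoint (UU f) (YY f ∪ Lin) := by
    rw [Set.disjoint_left]
    rintro x hx (hy | ⟨r, _, hr⟩)
    · exact hx hy.1
    · exact hx (euler x (hln r x hr).2)
  have h0UYL : Disjoint {z : Pt K σ | z = 0} (UU f ∪ (YY f ∪ Lin)) := by
    rw [Set.disjoint_left]
    rintro x hx (hy | hy | ⟨r, _, hr⟩)
    · apply hy
      rw [show x = 0 from hx]
      exact aeval_zero' hf (by omega)
    · obtain ⟨_, l, hl⟩ := hy
      apply hl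
      rw [show x = 0 from hx]
      exact aeval_zero' (hder l) (by omega)
    · exact (hln r x hr).1 hx
  have huniv : {z : Pt K σ | z = 0} ∪ (UU f ∪ (YY f ∪ Lin)) = Set.univ := by
    ext x
    simp only [Set.mem_univ, iff_true]
    by_cases hx : x = 0
    · exact Or.inl hx
    right
    by_cases hfx : aeval x f = 0
    · right
      by_cases hs : ∀ l, aeval x (pderiv l f) = 0
      · obtain ⟨r, hr⟩ := hall x hx hs
        exact Or.inr ⟨r, Finset.mem_univ _, hr⟩
      · push Not at hs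
        exact Or.inl ⟨hfx, hs⟩
    · exact Or.inl hfx
  have e1 := M.add _ _ h0.1 (hUc.union (hYc.union hLc)) h0UYL
  rw [M.add _ _ hUc (hYc.union hLc) hUYL, M.add _ _ hYc hLc hYL, huniv, chi_univ, h0.2, hA, hLs'] at e1
  have e2 := mul_geom_sum M.L (Fintype.card σ)
  linear_combination -e1 - e2

end Pool.Agent.J4H21.YJ
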